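import Mathlib

/-!
Topological preliminaries for MP_3b51b4_gt: perfectly normal compacta are first countable and
hereditarily Lindelöf; a countable `T₀`-separating family of open sets makes them metrizable;
the selection of an unseparated `ω₁`-sequence of pairs.
-/

namespace Pool.Agent.W_MP_3b51b4_gt

open Set Topology Filter Cardinal

universe u

section Compact

variable {Z : Type u} [TopologicalSpace Z] [CompactSpace Z] [T2Space Z] [PerfectlyNormalSpace Z]

/-- Every point has a decreasing countable neighbourhood base of open sets. -/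
theorem exists_base (x : Z) : ∃ B : ℕ → Set Z, (∀ n, IsOpen (B n)) ∧ (∀ n, x ∈ B n) ∧
    (∀ m n, m ≤ n → B n ⊆ B m) ∧ ∀ U ∈ 𝓝 x, ∃ n, B n ⊆ U := by
  obtain ⟨O, hO, hx⟩ := isGδ_iff_eq_iInter_nat.1 ((isClosed_singleton (x := x)).isGδ)
  have hxO : ∀ n, x ∈ O n := fun n => by
    have : x ∈ ⋂ n, O n := hx ▸ mem_singleton x
    exact mem_iInter.1 this n
  -- closed neighbourhoods inside `O n`
  have h1 : ∀ n, ∃ C : Set Z, C ∈ 𝓝 x ∧ IsClosed C ∧ C ⊆ O n := fun n =>
    exists_mem_nhds_isClosed_subset ((hO n).mem_nhds (hxO n))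
  choose C hC hCc hCO using h1
  let D : ℕ → Set Z := fun n => ⋂ i ∈ Finset.range (n + 1), C i
  have hDn : ∀ n, D n ∈ 𝓝 x := fun n => (biInter_finset_mem _).2 fun i _ => hC i
  have hDc : ∀ n, IsClosed (D n) := fun n => isClosed_biInter fun i _ => hCc i
  have hDanti : ∀ m n, m ≤ n → D n ⊆ D m := fun m n hmn =>
    biInter_subset_biInter_left fun i hi => by
      simp only [Finset.coe_range, mem_Iio] at hi ⊢
      omega
  refine ⟨fun n => interior (D n), fun n => isOpen_interior,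
    fun n => mem_interior_iff_mem_nhds.2 (hDn n), fun m n hmn => interior_mono (hDanti m n hmn), ?_⟩
  intro U hU
  have hdir : Directed (· ⊇ ·) D := fun i j =>
    ⟨max i j, hDanti _ _ (le_max_left _ _), hDanti _ _ (le_max_right _ _)⟩
  have hall : ∀ y ∈ ⋂ n, D n, U ∈ 𝓝 y := by
    intro y hy
    have : y = x := by
      have h2 : y ∈ ⋂ n, O n := mem_iInter.2 fun n => hCO n (by
        have := mem_iInter.1 hy n
        exact mem_iInter₂.1 this n (Finset.self_mem_range_succ n))
      rw [← hx] at h2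
      exact h2
    rw [this]
    exact hU
  obtain ⟨n, hn⟩ := exists_subset_nhds_of_isCompact' hdir (fun n => (hDc n).isCompact) hDc hall
  exact ⟨n, interior_subset.trans hn⟩

omit [T2Space Z] in
/-- Perfectly normal compacta are hereditarily Lindelöf. -/
theorem hereditarilyLindelof : HereditarilyLindelofSpace Z := by
  refine HereditarilyLindelofSpace.of_forall_isOpen fun s hs => ?_
  obtain ⟨O, hO, hx⟩ := isGδ_iff_eq_iInter_nat.1 (hs.isClosed_compl.isGδ)
  have : s = ⋃ n, (O n)ᶜ := by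
    rw [← compl_iInter, ← hx, compl_compl]
  rw [this]
  exact isLindelof_iUnion fun n => ((hO n).isClosed_compl.isCompact).isLindelof

omit [T2Space Z] in
/-- A countable `T₀`-separating family of open sets makes a perfectly normal compactum
metrizable. -/
theorem metrizable_of_sep {ι : Type*} [Countable ι] (V : ι → Set Z) (hV : ∀ i, IsOpen (V i))
    (hsep : ∀ x y, x ≠ y → ∃ i, ¬(x ∈ V i ↔ y ∈ V i)) : TopologicalSpace.MetrizableSpace Z := by
  have h1 : ∀ i, ∃ f : C(Z, ℝ), (V i)ᶜ = f ⁻¹' {0} := fun i => by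
    obtain ⟨f, hf, -⟩ := (perfectlyNormalSpace_iff_forall_isClosed_preimage_zero.1
      (inferInstance : PerfectlyNormalSpace Z)) (V i)ᶜ (hV i).isClosed_compl
    exact ⟨f, hf⟩
  choose f hf using h1
  let Φ : Z → ι → ℝ := fun z i => f i z
  have hΦ : Continuous Φ := continuous_pi fun i => (f i).continuous
  have hinj : Function.Injective Φ := by
    intro x y hxy
    by_contra hne
    obtain ⟨i, hi⟩ := hsep x y hne
    apply hi
    have hz : ∀ z, z ∈ V i ↔ f i z ≠ 0 := fun z => by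
      have : z ∈ (V i)ᶜ ↔ z ∈ f i ⁻¹' {0} := by rw [hf i]
      simp only [mem_compl_iff, mem_preimage, mem_singleton_iff] at this
      tauto
    rw [hz, hz]
    have : f i x = f i y := congrFun hxy i
    rw [this]
  exact (hΦ.isClosedEmbedding hinj).isEmbedding.metrizableSpace

omit [T2Space Z] in
/-- Selection of `Ω` many pairs which are not separated by the neighbourhoods of the previous
points; all but countably many of them are close to the diagonal. -/
theorem exists_pairs_aux [T2Space Z] (hZ : ¬ TopologicalSpace.MetrizableSpace Z) (Ω : Type)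
    [LinearOrder Ω] [WellFoundedLT Ω] (hΩ : ∀ a : Ω, (Iio a).Countable) :
    ∃ (x y : Ω → Z), (∀ a, x a ≠ y a) ∧
      ∀ V : Z → Set Z, (∀ z, V z ∈ 𝓝 z) →
        {a | ∀ z, ¬ (x a ∈ V z ∧ y a ∈ V z)}.Countable := by
  choose B hBo hBx _ hBU using exists_base (Z := Z)
  have hsel : ∀ C : {C : Set Z // C.Countable}, ∃ p : Z × Z, p.1 ≠ p.2 ∧
      ∀ c ∈ C.1, ∀ n, p.1 ∈ B c n ↔ p.2 ∈ B c n := by
    rintro ⟨C, hC⟩
    by_contra hcon
    push Not at hcon
    apply hZ
    have : Countable C := hC.to_subtype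
    refine metrizable_of_sep (ι := C × ℕ) (fun i => B i.1 i.2) (fun i => hBo _ _) ?_
    intro x y hxy
    obtain ⟨c, hc, n, hn⟩ := hcon (x, y) hxy
    refine ⟨(⟨c, hc⟩, n), ?_⟩
    intro hiff
    rcases hn with ⟨h1, h2⟩ | ⟨h1, h2⟩
    · exact h2 (hiff.1 h1)
    · exact h1 (hiff.2 h2)
  choose sel hsel1 hsel2 using hsel
  have hcount : ∀ (a : Ω) (ih : ∀ b, b < a → Z × Z),
      (range (fun b : Iio a => (ih b.1 b.2).1)).Countable := fun a ih => by
    have : Countable (Iio a) := (hΩ a).to_subtype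
    exact countable_range _
  let F : ∀ a : Ω, (∀ b, b < a → Z × Z) → Z × Z := fun a ih =>
    sel ⟨range (fun b : Iio a => (ih b.1 b.2).1), hcount a ih⟩
  let P : Ω → Z × Z := (wellFounded_lt (α := Ω)).fix F
  have hP : ∀ a, P a = F a (fun b _ => P b) := fun a => (wellFounded_lt (α := Ω)).fix_eq F a
  have hP1 : ∀ a, (P a).1 ≠ (P a).2 := fun a => by
    rw [hP a]
    exact hsel1 _
  have hP2 : ∀ a b, b < a → ∀ n, (P a).1 ∈ B (P b).1 n ↔ (P a).2 ∈ B (P b).1 n := by
    intro a b hb n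
    have := hsel2 ⟨range (fun b : Iio a => (P b.1).1), hcount a (fun b _ => P b)⟩ (P b).1
      ⟨⟨b, hb⟩, rfl⟩ n
    rw [hP a]
    exact this
  refine ⟨fun a => (P a).1, fun a => (P a).2, hP1, ?_⟩
  intro V hV
  by_contra hA
  set A : Set Ω := {a | ∀ z, ¬ ((P a).1 ∈ V z ∧ (P a).2 ∈ V z)} with hAdef
  have hn : ∀ a : Ω, ∃ n, B (P a).1 n ⊆ V (P a).1 := fun a => hBU _ _ (hV _)
  choose n hn using hn
  have : HereditarilyLindelofSpace Z := hereditarilyLindelof
  obtain ⟨t, htc, ht⟩ := eq_open_union_countable (fun a : A => B (P a.1).1 (n a.1))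
    (fun a => hBo _ _)
  have hC : (⋃ b ∈ t, Iic (b.1 : Ω)).Countable := htc.biUnion fun b _ => by
    rw [← Iio_insert]
    exact (hΩ _).insert _
  obtain ⟨a, haA, ha⟩ : ∃ a ∈ A, a ∉ ⋃ b ∈ t, Iic (b.1 : Ω) := by
    by_contra hcon
    push Not at hcon
    exact hA (hC.mono hcon)
  have hlt : ∀ b ∈ t, (b.1 : Ω) < a := by
    intro b hb
    by_contra hle
    exact ha (mem_iUnion₂.2 ⟨b, hb, not_lt.1 hle⟩)
  have hmem : (P a).1 ∈ ⋃ b : A, B (P b.1).1 (n b.1) := mem_iUnion.2 ⟨⟨a, haA⟩, hBx _ _⟩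
  rw [← ht] at hmem
  obtain ⟨b, hb, hmem⟩ := mem_iUnion₂.1 hmem
  have h2 := (hP2 a b.1 (hlt b hb) (n b.1)).1 hmem
  exact haA (P b.1).1 ⟨hn _ hmem, hn _ h2⟩

end Compact

end Pool.Agent.W_MP_3b51b4_gt
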