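import Mathlib

/-!
Definitions for MP_3b51b4_gt: Martin's axiom for `κ` dense sets, countable point-finite
cellularity, the function space with the topology of pointwise convergence.
-/

namespace Pool.Agent.W_MP_3b51b4_gt

/-- Martin's axiom for `κ` dense sets: for every nonempty preorder `P` all of whose antichains
(sets of pairwise incompatible elements) are countable, and every family `𝒟` of at most `κ` dense
subsets of `P`, some filter of `P` (a nonempty, upward closed, downward directed subset) meets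
every member of `𝒟`. Here `r` is stronger than `p` when `r ≤ p`. -/
def MA (κ : Cardinal.{0}) : Prop :=
  ∀ (P : Type) [Preorder P] [Nonempty P],
    (∀ A : Set P, (∀ p ∈ A, ∀ q ∈ A, p ≠ q → ¬ ∃ r, r ≤ p ∧ r ≤ q) → A.Countable) →
    ∀ 𝒟 : Set (Set P), Cardinal.mk 𝒟 ≤ κ → (∀ D ∈ 𝒟, ∀ p, ∃ q ∈ D, q ≤ p) →
      ∃ G : Set P, G.Nonempty ∧ (∀ p ∈ G, ∀ q, p ≤ q → q ∈ G) ∧
        (∀ p ∈ G, ∀ q ∈ G, ∃ r ∈ G, r ≤ p ∧ r ≤ q) ∧ ∀ D ∈ 𝒟, (G ∩ D).Nonempty

/-- `p(Y) = ω`: every point-finite family of nonempty open subsets of `Y` is countable. -/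
def PointFiniteCellularityCountable (Y : Type*) [TopologicalSpace Y] : Prop :=
  ∀ 𝒰 : Set (Set Y), (∀ U ∈ 𝒰, IsOpen U ∧ U.Nonempty) → (∀ y, {U ∈ 𝒰 | y ∈ U}.Finite) →
    𝒰.Countable

/-- `C_p(X)`: the continuous real functions on `X` with the subspace topology of `ℝ ^ X`. -/
abbrev Cp (X : Type*) [TopologicalSpace X] : Type _ := {f : X → ℝ // Continuous f}

/-- `w(X) ≤ κ`: the space `X` has a base with at most `κ` members. -/
def WeightLE (X : Type*) [TopologicalSpace X] (κ : Cardinal.{0}) : Prop :=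
  ∃ (ι : Type) (B : ι → Set X), Cardinal.mk ι ≤ κ ∧
    TopologicalSpace.IsTopologicalBasis (Set.range B)

end Pool.Agent.W_MP_3b51b4_gt
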