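import Pool.Agent.W_MP_3b51b4_gt.Defs
import Pool.Agent.W_MP_3b51b4_gt.Topo

/-!
The forcing argument for MP_3b51b4_gt.
-/

namespace Pool.Agent.W_MP_3b51b4_gt

open Set Topology Filter Cardinal

universe u

/-! ### Weak delta systems -/

theorem exists_root {Λ Ω : Type*} [DecidableEq Ω] : ∀ (m : ℕ) (A : Set Λ) (_ : ¬ A.Countable)
    (F : Λ → Finset Ω) (_ : ∀ l ∈ A, (F l).card = m),
    ∃ (R : Finset Ω) (A' : Set Λ), A' ⊆ A ∧ ¬ A'.Countable ∧ (∀ l ∈ A', R ⊆ F l) ∧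
      ∀ w, w ∉ R → {l ∈ A' | w ∈ F l}.Countable := by
  intro m
  induction m with
  | zero =>
    intro A hA F hF
    refine ⟨∅, A, Subset.rfl, hA, fun l _ => Finset.empty_subset _, fun w _ => ?_⟩
    have : {l ∈ A | w ∈ F l} = ∅ := by
      ext l
      simp only [mem_sep_iff, mem_empty_iff_false, iff_false, not_and]
      intro hl
      rw [Finset.card_eq_zero.1 (hF l hl)]
      exact Finset.notMem_empty w
    rw [this]
    exact countable_empty
  | succ m ih =>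
    intro A hA F hF
    by_cases h : ∀ w, {l ∈ A | w ∈ F l}.Countable
    · exact ⟨∅, A, Subset.rfl, hA, fun l _ => Finset.empty_subset _, fun w _ => h w⟩
    · push Not at h
      obtain ⟨w, hw⟩ := h
      obtain ⟨R, A', hA'A, hA', hR, hcount⟩ := ih {l ∈ A | w ∈ F l} hw (fun l => (F l).erase w)
        (by
          rintro l ⟨hl, hwl⟩
          rw [Finset.card_erase_of_mem hwl, hF l hl]
          rfl)
      refine ⟨insert w R, A', fun l hl => (hA'A hl).1, hA', ?_, ?_⟩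
      · intro l hl
        refine Finset.insert_subset (hA'A hl).2 ?_
        exact (hR l hl).trans (Finset.erase_subset _ _)
      · intro v hv
        rw [Finset.mem_insert, not_or] at hv
        refine (hcount v hv.2).mono ?_
        rintro l ⟨hl, hvl⟩
        exact ⟨hl, Finset.mem_erase.2 ⟨hv.1, hvl⟩⟩

theorem exists_root' {Λ Ω : Type*} [DecidableEq Ω] (A : Set Λ) (hA : ¬ A.Countable)
    (F : Λ → Finset Ω) :
    ∃ (m : ℕ) (R : Finset Ω) (A' : Set Λ), A' ⊆ A ∧ ¬ A'.Countable ∧ (∀ l ∈ A', R ⊆ F l) ∧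
      (∀ w, w ∉ R → {l ∈ A' | w ∈ F l}.Countable) ∧ ∀ l ∈ A', (F l \ R).card = m := by
  have h1 : ∃ m : ℕ, ¬ {l ∈ A | (F l).card = m}.Countable := by
    by_contra hcon
    push Not at hcon
    apply hA
    refine (countable_iUnion hcon).mono fun l hl => ?_
    exact mem_iUnion.2 ⟨(F l).card, hl, rfl⟩
  obtain ⟨m, hm⟩ := h1
  obtain ⟨R, A', hA'A, hA', hR, hcount⟩ := exists_root m _ hm F (fun l hl => hl.2)
  refine ⟨m - R.card, R, A', fun l hl => (hA'A hl).1, hA', hR, hcount, fun l hl => ?_⟩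
  rw [Finset.card_sdiff_of_subset (hR l hl), (hA'A hl).2]

/-! ### Accumulation on the diagonal -/

section

variable {Z : Type u} [TopologicalSpace Z] [CompactSpace Z]

theorem exists_point {Ω : Type} (x y : Ω → Z)
    (hxy : ∀ V : Z → Set Z, (∀ z, V z ∈ 𝓝 z) →
      {a | ∀ z, ¬ (x a ∈ V z ∧ y a ∈ V z)}.Countable)
    {Λ : Type*} (A : Set Λ) (hA : ¬ A.Countable) (m : ℕ) (t : Λ → Fin m → Ω)
    (ht : ∀ w, {l ∈ A | ∃ i, t l i = w}.Countable) :
    ∃ z : Fin m → Z, ∀ U : Fin m → Set Z, (∀ i, U i ∈ 𝓝 (z i)) →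
      ¬ {l ∈ A | ∀ i, x (t l i) ∈ U i ∧ y (t l i) ∈ U i}.Countable := by
  classical
  by_contra hcon
  push Not at hcon
  choose U hU hUc using hcon
  let N : (Fin m → Z) → Set (Fin m → Z) := fun z => {w | ∀ i, w i ∈ interior (U z i)}
  have hN : ∀ z, N z ∈ 𝓝 z := by
    intro z
    have : N z = Set.pi Set.univ (fun i => interior (U z i)) := by
      ext w
      simp [N, Set.mem_pi]
    rw [this]
    exact set_pi_mem_nhds Set.finite_univ fun i _ => interior_mem_nhds.2 (hU z i)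
  obtain ⟨s, -, hs⟩ := isCompact_univ.elim_nhds_subcover N (fun z _ => hN z)
  let V : Z → Set Z := fun v => ⋂ z ∈ s, ⋂ i, if v ∈ interior (U z i) then interior (U z i)
    else univ
  have hV : ∀ v, V v ∈ 𝓝 v := by
    intro v
    refine (biInter_finset_mem _).2 fun z _ => iInter_mem.2 fun i => ?_
    by_cases h : v ∈ interior (U z i)
    · rw [if_pos h]
      exact isOpen_interior.mem_nhds h
    · rw [if_neg h]
      exact univ_mem
  have hC := hxy V hV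
  apply hA
  have h1 : (⋃ w ∈ {a | ∀ z, ¬ (x a ∈ V z ∧ y a ∈ V z)}, {l ∈ A | ∃ i, t l i = w}).Countable :=
    hC.biUnion fun w _ => ht w
  have h2 : (⋃ z ∈ s, {l ∈ A | ∀ i, x (t l i) ∈ U z i ∧ y (t l i) ∈ U z i}).Countable :=
    s.countable_toSet.biUnion fun z _ => hUc z
  refine (h1.union h2).mono fun l hl => ?_
  by_cases hbad : ∃ i, ∀ z, ¬ (x (t l i) ∈ V z ∧ y (t l i) ∈ V z)
  · obtain ⟨i, hi⟩ := hbad
    exact Or.inl (mem_iUnion₂.2 ⟨t l i, hi, hl, i, rfl⟩)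
  · push Not at hbad
    right
    choose w hw1 hw2 using hbad
    have hw : w ∈ ⋃ z ∈ s, N z := hs (mem_univ w)
    obtain ⟨z, hz, hwz⟩ := mem_iUnion₂.1 hw
    refine mem_iUnion₂.2 ⟨z, hz, hl, fun i => ?_⟩
    have hsub : V (w i) ⊆ U z i := by
      intro v hv
      have := mem_iInter.1 (mem_iInter₂.1 hv z hz) i
      rw [if_pos (hwz i)] at this
      exact interior_subset this
    exact ⟨hsub (hw1 i), hsub (hw2 i)⟩

theorem exists_seq [T2Space Z] [PerfectlyNormalSpace Z] {Ω J : Type} (x y : Ω → Z)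
    (hxy : ∀ V : Z → Set Z, (∀ z, V z ∈ 𝓝 z) →
      {a | ∀ z, ¬ (x a ∈ V z ∧ y a ∈ V z)}.Countable)
    (E : J → Set Ω)
    (hE : ∀ j, ∃ V : Z → Set Z, (∀ z, V z ∈ 𝓝 z) ∧ ∀ a ∈ E j, ∀ z, ¬ (x a ∈ V z ∧ y a ∈ V z))
    {Λ : Type*} (A : Set Λ) (hA : ¬ A.Countable) (m : ℕ) (G : Λ → Finset Ω)
    (hG : ∀ l ∈ A, (G l).card = m) (hpc : ∀ w, {l ∈ A | w ∈ G l}.Countable) :
    ∃ s : ℕ → Λ, (∀ n, s n ∈ A) ∧ ∀ j, ∀ᶠ n in atTop, ∀ w ∈ G (s n), w ∉ E j := by
  classical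
  have ht : ∀ l : Λ, ∃ t : Fin m → Ω, l ∈ A → ∀ w, w ∈ G l ↔ ∃ i, t i = w := by
    intro l
    by_cases hl : l ∈ A
    · have e := (G l).equivFinOfCardEq (hG l hl)
      refine ⟨fun i => (e.symm i).1, fun _ w => ⟨fun hw => ⟨e ⟨w, hw⟩, by simp⟩, ?_⟩⟩
      rintro ⟨i, rfl⟩
      exact (e.symm i).2
    · have hne : A.Nonempty := by
        rw [nonempty_iff_ne_empty]
        rintro rfl
        exact hA countable_empty
      obtain ⟨l', hl'⟩ := hne
      have e := (G l').equivFinOfCardEq (hG l' hl')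
      exact ⟨fun i => (e.symm i).1, fun h => absurd h hl⟩
  choose t ht using ht
  obtain ⟨z, hz⟩ := exists_point x y hxy A hA m t (fun w => by
    refine (hpc w).mono ?_
    rintro l ⟨hl, hi⟩
    exact ⟨hl, (ht l hl w).2 hi⟩)
  choose B hBo hBx hBanti hBU using exists_base (Z := Z)
  have hn : ∀ n : ℕ, ∃ l, l ∈ A ∧ ∀ i, x (t l i) ∈ B (z i) n ∧ y (t l i) ∈ B (z i) n := by
    intro n
    have h1 := hz (fun i => B (z i) n) (fun i => (hBo _ _).mem_nhds (hBx _ _))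
    by_contra hcon
    push Not at hcon
    apply h1
    have : {l ∈ A | ∀ i, x (t l i) ∈ B (z i) n ∧ y (t l i) ∈ B (z i) n} = ∅ := by
      ext l
      simp only [mem_sep_iff, mem_empty_iff_false, iff_false, not_and]
      intro hl hall
      obtain ⟨i, hi⟩ := hcon l hl
      exact hi (hall i).1 (hall i).2
    rw [this]
    exact countable_empty
  choose s hsA hs using hn
  refine ⟨s, hsA, fun j => ?_⟩
  obtain ⟨V, hV, hVE⟩ := hE j
  have hk : ∀ i, ∃ k, B (z i) k ⊆ V (z i) := fun i => hBU _ _ (hV _)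
  choose k hk using hk
  filter_upwards [eventually_ge_atTop (Finset.univ.sup k)] with n hn w hw hwE
  obtain ⟨i, hi⟩ := (ht _ (hsA n) w).1 hw
  have h1 := hs n i
  rw [hi] at h1
  have h2 : B (z i) n ⊆ V (z i) :=
    (hBanti (z i) (k i) n ((Finset.le_sup (Finset.mem_univ i)).trans hn)).trans (hk i)
  exact hVE w hwE (z i) ⟨h2 h1.1, h2 h1.2⟩

end

/-! ### The partial order -/

/-- Conditions: a finite set of chosen indices and a finite set of promises. -/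
structure Cond (Ω J : Type) (E : J → Set Ω) where
  /-- the chosen indices -/
  F : Finset Ω
  /-- the promises -/
  H : Finset J

instance (Ω J : Type) (E : J → Set Ω) : Preorder (Cond Ω J E) where
  le p q := q.F ⊆ p.F ∧ q.H ⊆ p.H ∧ ∀ w ∈ p.F, w ∉ q.F → ∀ j ∈ q.H, w ∉ E j
  le_refl p := ⟨Finset.Subset.refl _, Finset.Subset.refl _, fun w h1 h2 => absurd h1 h2⟩
  le_trans p q r h1 h2 := by
    refine ⟨h2.1.trans h1.1, h2.2.1.trans h1.2.1, fun w hw hwr j hj => ?_⟩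
    by_cases hwq : w ∈ q.F
    · exact h2.2.2 w hwq hwr j hj
    · exact h1.2.2 w hw hwq j (h2.2.1 hj)

theorem Cond.le_def {Ω J : Type} {E : J → Set Ω} (p q : Cond Ω J E) :
    p ≤ q ↔ q.F ⊆ p.F ∧ q.H ⊆ p.H ∧ ∀ w ∈ p.F, w ∉ q.F → ∀ j ∈ q.H, w ∉ E j := Iff.rfl

/-- The countable chain condition. -/
theorem ccc {Ω J : Type} (E : J → Set Ω) (hEc : ∀ j, (E j).Countable)
    (hseq : ∀ (A : Set (Cond Ω J E)), ¬ A.Countable → ∀ (m : ℕ) (G : Cond Ω J E → Finset Ω),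
      (∀ l ∈ A, (G l).card = m) → (∀ w, {l ∈ A | w ∈ G l}.Countable) →
      ∃ s : ℕ → Cond Ω J E, (∀ n, s n ∈ A) ∧ ∀ j, ∀ᶠ n in atTop, ∀ w ∈ G (s n), w ∉ E j)
    (A : Set (Cond Ω J E)) (hanti : ∀ p ∈ A, ∀ q ∈ A, p ≠ q → ¬ ∃ r, r ≤ p ∧ r ≤ q) :
    A.Countable := by
  classical
  by_contra hA
  obtain ⟨m, R, A', hA'A, hA', hR, hcount, hcard⟩ := exists_root' A hA (fun p => p.F)
  obtain ⟨s, hsA, hs⟩ := hseq A' hA' m (fun p => p.F \ R) hcard (fun w => by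
    by_cases hw : w ∈ R
    · have : {l ∈ A' | w ∈ l.F \ R} = ∅ := by
        ext l
        simp [hw]
      rw [this]
      exact countable_empty
    · refine (hcount w hw).mono ?_
      rintro l ⟨hl, hwl⟩
      exact ⟨hl, (Finset.mem_sdiff.1 hwl).1⟩)
  -- the countable set to be avoided
  let C : Set Ω := ⋃ n, ⋃ j ∈ (s n).H, E j
  have hC : C.Countable := countable_iUnion fun n => (s n).H.countable_toSet.biUnion fun j _ =>
    hEc j
  have hbad : ((⋃ w ∈ C \ R, {l ∈ A' | w ∈ l.F}) ∪ range s).Countable := by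
    refine Countable.union ?_ (countable_range s)
    refine (hC.mono sdiff_subset).biUnion fun w hw => hcount w ?_
    intro h
    exact hw.2 (Finset.mem_coe.2 h)
  obtain ⟨q, hqA, hq⟩ : ∃ q ∈ A', q ∉ (⋃ w ∈ C \ R, {l ∈ A' | w ∈ l.F}) ∪ range s := by
    by_contra hcon
    push Not at hcon
    exact hA' (hbad.mono hcon)
  have hqC : ∀ w ∈ q.F, w ∉ R → ∀ n, ∀ j ∈ (s n).H, w ∉ E j := by
    intro w hw hwR n j hj hwE
    apply hq
    left
    refine mem_iUnion₂.2 ⟨w, ⟨?_, fun h => hwR (Finset.mem_coe.1 h)⟩, hqA, hw⟩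
    exact mem_iUnion.2 ⟨n, mem_iUnion₂.2 ⟨j, hj, hwE⟩⟩
  have hqs : ∀ n, s n ≠ q := fun n h => hq (Or.inr ⟨n, h⟩)
  have hev : ∀ᶠ n in atTop, ∀ j ∈ q.H, ∀ w ∈ (s n).F \ R, w ∉ E j :=
    (Finset.eventually_all q.H).2 fun j _ => hs j
  obtain ⟨n, hn⟩ := hev.exists
  refine hanti (s n) (hA'A (hsA n)) q (hA'A hqA) (hqs n) ⟨⟨(s n).F ∪ q.F, (s n).H ∪ q.H⟩, ?_, ?_⟩
  · refine ⟨Finset.subset_union_left, Finset.subset_union_left, fun w hw hwn j hj => ?_⟩
    have hwq : w ∈ q.F := (Finset.mem_union.1 hw).resolve_left hwn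
    have hwR : w ∉ R := fun h => hwn (hR _ (hsA n) h)
    exact hqC w hwq hwR n j hj
  · refine ⟨Finset.subset_union_right, Finset.subset_union_right, fun w hw hwq j hj => ?_⟩
    have hwn : w ∈ (s n).F := (Finset.mem_union.1 hw).resolve_right hwq
    have hwR : w ∉ R := fun h => hwq (hR _ hqA h)
    exact hn j hj w (Finset.mem_sdiff.2 ⟨hwn, hwR⟩)

/-- The generic set. -/
theorem exists_generic {κ : Cardinal.{0}} (hκ : ℵ₀ ≤ κ) (hMA : MA κ) {Ω J : Type} [LinearOrder Ω]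
    [Nonempty Ω] (hΩ1 : ¬ Countable Ω) (hΩ : ∀ a : Ω, (Iio a).Countable) (hcard : #Ω ≤ κ)
    (hJ : #J ≤ κ) (E : J → Set Ω) (hEc : ∀ j, (E j).Countable)
    (hseq : ∀ (A : Set (Cond Ω J E)), ¬ A.Countable → ∀ (m : ℕ) (G : Cond Ω J E → Finset Ω),
      (∀ l ∈ A, (G l).card = m) → (∀ w, {l ∈ A | w ∈ G l}.Countable) →
      ∃ s : ℕ → Cond Ω J E, (∀ n, s n ∈ A) ∧ ∀ j, ∀ᶠ n in atTop, ∀ w ∈ G (s n), w ∉ E j) :
    ∃ Ω' : Set Ω, ¬ Ω'.Countable ∧ ∀ j, (Ω' ∩ E j).Finite := by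
  classical
  have huniv : ¬ (univ : Set Ω).Countable := fun h => hΩ1 (countable_univ_iff.1 h)
  have hIic : ∀ a : Ω, (Iic a).Countable := fun a => by
    rw [← Iio_insert]
    exact (hΩ _).insert _
  let D₁ : Ω → Set (Cond Ω J E) := fun a => {p | ∃ b ∈ p.F, a < b}
  let D₂ : J → Set (Cond Ω J E) := fun j => {p | j ∈ p.H}
  have hcard𝒟 : #(range D₁ ∪ range D₂ : Set (Set (Cond Ω J E))) ≤ κ := by
    refine (mk_union_le _ _).trans ?_
    refine (add_le_add (mk_range_le.trans hcard) (mk_range_le.trans hJ)).trans ?_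
    rw [Cardinal.add_eq_self hκ]
  have : Nonempty (Cond Ω J E) := ⟨⟨∅, ∅⟩⟩
  obtain ⟨G, -, -, hdir, hmeet⟩ := hMA (Cond Ω J E) (ccc E hEc hseq) (range D₁ ∪ range D₂)
    hcard𝒟 (by
      rintro D (⟨a, rfl⟩ | ⟨j, rfl⟩) p
      · have hc : (Iic a ∪ ⋃ j ∈ p.H, E j).Countable :=
          (hIic a).union (p.H.countable_toSet.biUnion fun j _ => hEc j)
        obtain ⟨b, hb⟩ : ∃ b, b ∉ Iic a ∪ ⋃ j ∈ p.H, E j := by
          by_contra hcon
          push Not at hcon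
          exact huniv (hc.mono fun b _ => hcon b)
        rw [mem_union, not_or] at hb
        refine ⟨⟨insert b p.F, p.H⟩, ⟨b, Finset.mem_insert_self _ _, not_le.1 hb.1⟩, ?_⟩
        refine ⟨Finset.subset_insert _ _, Finset.Subset.refl _, fun w hw hwp j hj hwE => ?_⟩
        rcases Finset.mem_insert.1 hw with rfl | hw
        · exact hb.2 (mem_iUnion₂.2 ⟨j, hj, hwE⟩)
        · exact hwp hw
      · refine ⟨⟨p.F, insert j p.H⟩, Finset.mem_insert_self _ _, ?_⟩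
        exact ⟨Finset.Subset.refl _, Finset.subset_insert _ _, fun w hw hwp => absurd hw hwp⟩)
  refine ⟨{w | ∃ p ∈ G, w ∈ p.F}, ?_, fun j => ?_⟩
  · intro hc
    have hc' : (⋃ b ∈ {w | ∃ p ∈ G, w ∈ p.F}, Iic b).Countable := hc.biUnion fun b _ => hIic b
    obtain ⟨a, ha⟩ : ∃ a, a ∉ ⋃ b ∈ {w | ∃ p ∈ G, w ∈ p.F}, Iic b := by
      by_contra hcon
      push Not at hcon
      exact huniv (hc'.mono fun b _ => hcon b)
    obtain ⟨p, hpG, b, hbp, hab⟩ := hmeet (D₁ a) (Or.inl ⟨a, rfl⟩)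
    exact ha (mem_iUnion₂.2 ⟨b, ⟨p, hpG, hbp⟩, hab.le⟩)
  · obtain ⟨p, hpG, hjp⟩ := hmeet (D₂ j) (Or.inr ⟨j, rfl⟩)
    refine p.F.finite_toSet.subset ?_
    rintro w ⟨⟨q, hqG, hwq⟩, hwE⟩
    by_contra hwp
    obtain ⟨r, hrG, hrp, hrq⟩ := hdir p hpG q hqG
    exact hrp.2.2 w (hrq.1 hwq) (fun h => hwp (Finset.mem_coe.2 h)) j hjp hwE

end Pool.Agent.W_MP_3b51b4_gt
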